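import Pool.Agent.VM.StmtsW

/-!
# Squad VMV: modules DIR and DVD
-/

set_option autoImplicit false

namespace Pool.Agent.VM.H21

open Pool.Agent.VM

theorem dir : DirStmt := by
  intro t a q Q hq hgcd ht hQ
  have hQ1 : 0 < Q := by omega
  obtain ⟨r, hr1, hr2⟩ := Real.exists_rat_abs_sub_le_and_den_le t hQ1
  refine ⟨r.num, r.den, r.den_pos, hr2, ?_, ?_, ?_⟩
  · by_contra hcon
    push Not at hcon
    have hq0 : (0 : ℝ) < q := by exact_mod_cast hq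
    have hu0 : (0 : ℝ) < r.den := by exact_mod_cast r.den_pos
    have hQ0 : (0 : ℝ) < Q := by exact_mod_cast hQ1
    have hr1' : |t - (r.num : ℝ) / (r.den : ℝ)| ≤ 1 / (((Q : ℝ) + 1) * (r.den : ℝ)) := by
      have : ((r : ℚ) : ℝ) = (r.num : ℝ) / (r.den : ℝ) := by
        exact Rat.cast_def r
      rw [← this]
      exact hr1
    have h1 : |(r.num : ℝ) / (r.den : ℝ) - (a : ℝ) / (q : ℝ)| ≤
        1 / (q : ℝ) ^ 2 + 1 / (((Q : ℝ) + 1) * (r.den : ℝ)) := by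
      have e : (r.num : ℝ) / (r.den : ℝ) - (a : ℝ) / (q : ℝ) =
          (t - (a : ℝ) / (q : ℝ)) - (t - (r.num : ℝ) / (r.den : ℝ)) := by ring
      rw [e]
      exact (abs_sub _ _).trans (add_le_add ht hr1')
    have hne : r.num * (q : ℤ) - a * (r.den : ℤ) ≠ 0 := by
      intro h
      have h2 : r.num * (q : ℤ) = a * (r.den : ℤ) := by linarith
      have h3 : (q : ℤ) ∣ a * (r.den : ℤ) := ⟨r.num, by rw [← h2]; ring⟩
      have h4 : (q : ℤ) ∣ (r.den : ℤ) := by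
        refine Int.dvd_of_dvd_mul_right_of_gcd_one h3 ?_
        rw [Int.gcd_comm]
        exact hgcd
      have h5 : q ∣ r.den := by exact_mod_cast h4
      have h6 := Nat.le_of_dvd r.den_pos h5
      omega
    have h7 : (1 : ℝ) ≤ |(r.num : ℝ) * (q : ℝ) - (a : ℝ) * (r.den : ℝ)| := by
      have h8 : (1 : ℤ) ≤ |r.num * (q : ℤ) - a * (r.den : ℤ)| := Int.one_le_abs hne
      have h9 : ((1 : ℤ) : ℝ) ≤ ((|r.num * (q : ℤ) - a * (r.den : ℤ)| : ℤ) : ℝ) := by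
        exact_mod_cast h8
      rw [Int.cast_abs] at h9
      push_cast at h9
      exact h9
    have h10 : (r.num : ℝ) / (r.den : ℝ) - (a : ℝ) / (q : ℝ) =
        ((r.num : ℝ) * (q : ℝ) - (a : ℝ) * (r.den : ℝ)) / ((r.den : ℝ) * (q : ℝ)) := by
      field_simp
    rw [h10, abs_div, abs_of_pos (mul_pos hu0 hq0)] at h1
    have h11 : 1 / ((r.den : ℝ) * (q : ℝ)) ≤ 1 / (q : ℝ) ^ 2 + 1 / (((Q : ℝ) + 1) * (r.den : ℝ)) :=
      (div_le_div_of_nonneg_right h7 (mul_pos hu0 hq0).le).trans h1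
    -- multiply out
    have hQq : 2 * (q : ℝ) ≤ Q := by exact_mod_cast hQ
    have h12 : 1 / (((Q : ℝ) + 1) * (r.den : ℝ)) ≤ 1 / (2 * (q : ℝ) * (r.den : ℝ)) := by
      apply one_div_le_one_div_of_le (by positivity)
      apply mul_le_mul_of_nonneg_right (by linarith) hu0.le
    have h13 : 1 / ((r.den : ℝ) * (q : ℝ)) = 1 / (2 * (q : ℝ) * (r.den : ℝ)) +
        1 / (2 * (q : ℝ) * (r.den : ℝ)) := by
      field_simp
      norm_num
    have h14 : 1 / (2 * (q : ℝ) * (r.den : ℝ)) ≤ 1 / (q : ℝ) ^ 2 := by linarith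
    have h15 : (q : ℝ) ^ 2 ≤ 2 * (q : ℝ) * (r.den : ℝ) :=
      (one_div_le_one_div (by positivity) (by positivity)).1 h14
    have h16 : (q : ℝ) ≤ 2 * (r.den : ℝ) := by nlinarith
    have h17 : q ≤ 2 * r.den := by exact_mod_cast h16
    omega
  · have := r.reduced
    rw [Int.gcd_def, Int.natAbs_natCast]
    exact this
  · have hu0 : (0 : ℝ) < r.den := by exact_mod_cast r.den_pos
    have hQ0 : (0 : ℝ) < Q := by exact_mod_cast hQ1
    have : ((r : ℚ) : ℝ) = (r.num : ℝ) / (r.den : ℝ) := by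
      exact Rat.cast_def r
    rw [← this]
    refine hr1.trans ?_
    apply one_div_le_one_div_of_le (by positivity)
    nlinarith

theorem dvd : DvdStmt := by
  intro t δ b u Q m hu huQ hgcd ht hm hδ hN
  obtain ⟨z, hz⟩ := hN
  have hu0 : (0 : ℝ) < u := by exact_mod_cast hu
  have hQ0 : (0 : ℝ) < Q := by exact_mod_cast (lt_of_lt_of_le hu huQ)
  have huQ' : (u : ℝ) ≤ Q := by exact_mod_cast huQ
  have hm' : 2 * |(m : ℝ)| ≤ Q := by exact_mod_cast hm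
  have h1 : |(b : ℝ) / (u : ℝ) * (m : ℝ) - (z : ℝ)| < 1 / (u : ℝ) := by
    have e : (b : ℝ) / (u : ℝ) * (m : ℝ) - (z : ℝ) =
        (t * (m : ℝ) - (z : ℝ)) - (t - (b : ℝ) / (u : ℝ)) * (m : ℝ) := by ring
    rw [e]
    have h2 : |(t - (b : ℝ) / (u : ℝ)) * (m : ℝ)| ≤ 1 / (2 * (u : ℝ)) := by
      rw [abs_mul]
      calc |t - (b : ℝ) / (u : ℝ)| * |(m : ℝ)| ≤ 1 / ((u : ℝ) * (Q : ℝ)) * ((Q : ℝ) / 2) :=
            mul_le_mul ht (by linarith) (abs_nonneg _) (by positivity)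
        _ = 1 / (2 * (u : ℝ)) := by field_simp
    have h3 : 1 / (2 * (Q : ℝ)) ≤ 1 / (2 * (u : ℝ)) :=
      one_div_le_one_div_of_le (by positivity) (by linarith)
    have h4 : 1 / (u : ℝ) = 1 / (2 * (u : ℝ)) + 1 / (2 * (u : ℝ)) := by
      field_simp
      norm_num
    calc |t * (m : ℝ) - (z : ℝ) - (t - (b : ℝ) / (u : ℝ)) * (m : ℝ)|
        ≤ |t * (m : ℝ) - (z : ℝ)| + |(t - (b : ℝ) / (u : ℝ)) * (m : ℝ)| := abs_sub _ _
      _ < 1 / (u : ℝ) := by linarith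
  have h5 : |(b : ℝ) * (m : ℝ) - (u : ℝ) * (z : ℝ)| < 1 := by
    have e : (b : ℝ) * (m : ℝ) - (u : ℝ) * (z : ℝ) =
        ((b : ℝ) / (u : ℝ) * (m : ℝ) - (z : ℝ)) * (u : ℝ) := by field_simp
    rw [e, abs_mul, abs_of_pos hu0]
    calc |(b : ℝ) / (u : ℝ) * (m : ℝ) - (z : ℝ)| * (u : ℝ) < 1 / (u : ℝ) * (u : ℝ) :=
          mul_lt_mul_of_pos_right h1 hu0
      _ = 1 := by field_simp
  have h6 : |b * m - (u : ℤ) * z| < 1 := by
    have : ((|b * m - (u : ℤ) * z| : ℤ) : ℝ) < ((1 : ℤ) : ℝ) := by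
      rw [Int.cast_abs]
      push_cast
      exact h5
    exact_mod_cast this
  have h7 : b * m - (u : ℤ) * z = 0 := Int.abs_lt_one_iff.1 h6
  have h8 : (u : ℤ) ∣ b * m := ⟨z, by linarith⟩
  refine Int.dvd_of_dvd_mul_right_of_gcd_one h8 ?_
  rw [Int.gcd_comm]
  exact hgcd

end Pool.Agent.VM.H21
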